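import Pool.Agent.Helper96.QT.Def

/-!
QT14: the quadratic character of a prime.
-/

set_option autoImplicit false

namespace Pool.Agent.QT

open Real Filter Topology MeasureTheory Set DirichletCharacter

theorem quad_char (q : ℕ) (hq : q.Prime) (hq2 : 2 < q) : ∃ (_ : NeZero q) (χ : DirichletCharacter ℂ q),
    Dat χ (fun n => (ArithmeticFunction.moebius n : ℝ) * (jacobiSym n q : ℝ)) ∧
      ∀ n : ℕ, χ n = (jacobiSym n q : ℂ) := by
  have : Fact q.Prime := ⟨hq⟩
  have hN : NeZero q := ⟨hq.ne_zero⟩
  let χ : DirichletCharacter ℂ q :=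
    (quadraticChar (ZMod q)).ringHomComp (Int.castRingHom ℂ)
  have hval : ∀ n : ℕ, χ n = (jacobiSym n q : ℂ) := by
    intro n
    have h1 : χ (n : ZMod q) = ((quadraticChar (ZMod q) (n : ZMod q) : ℤ) : ℂ) := rfl
    have h2 : legendreSym q (n : ℤ) = quadraticChar (ZMod q) (n : ZMod q) := by
      rw [legendreSym]
      norm_cast
    rw [h1, ← h2, jacobiSym.legendreSym.to_jacobiSym]
  have hchar : ringChar (ZMod q) ≠ 2 := by
    rw [ZMod.ringChar_zmod_n]
    omega
  have hquad : (quadraticChar (ZMod q)).IsQuadratic := quadraticChar_isQuadratic _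
  have hsq : χ ^ 2 = 1 := (hquad.comp (Int.castRingHom ℂ)).sq_eq_one
  have hne : χ ≠ 1 := by
    obtain ⟨a, ha⟩ := quadraticChar_exists_neg_one hchar
    intro h
    have h1 : χ a = ((quadraticChar (ZMod q) a : ℤ) : ℂ) := rfl
    rw [ha] at h1
    have ha0 : IsUnit a := by
      by_contra h0
      rw [isUnit_iff_ne_zero, not_not] at h0
      rw [h0, quadraticChar_zero] at ha
      norm_num at ha
    rw [h, MulChar.one_apply ha0] at h1
    norm_num at h1
  have hprim : χ.IsPrimitive := by
    rw [DirichletCharacter.isPrimitive_def]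
    rcases (Nat.dvd_prime hq).1 (DirichletCharacter.conductor_dvd_level χ) with h | h
    · exact absurd ((DirichletCharacter.eq_one_iff_conductor_eq_one (χ := χ)).2 h) hne
    · exact h
  refine ⟨hN, χ, ⟨hprim, hsq, hne, fun n => ?_⟩, hval⟩
  rw [hval]
  push_cast
  ring

theorem jac_prod (q : ℕ) (s : Finset ℕ) : jacobiSym ((∏ p ∈ s, p : ℕ) : ℤ) q =
    ∏ p ∈ s, jacobiSym (p : ℤ) q := by
  classical
  induction s using Finset.induction_on with
  | empty => simp [jacobiSym.one_left]
  | insert a s ha ih =>
    rw [Finset.prod_insert ha, Finset.prod_insert ha, Nat.cast_mul, jacobiSym.mul_left, ih]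

theorem PM_eq (X q : ℕ) (hq : q.Prime) (hX : X < q) (n : ℕ) (h1 : 1 ≤ n) (hn : n ≤ X) :
    PM (pat X q) n = (ArithmeticFunction.moebius n : ℝ) * (jacobiSym n q : ℝ) := by
  unfold PM
  split_ifs with hsf
  · have hprod : ∏ p ∈ n.primeFactors, p = n := Nat.prod_primeFactors_of_squarefree hsf
    have hJ : jacobiSym (n : ℤ) q = ∏ p ∈ n.primeFactors, jacobiSym (p : ℤ) q := by
      rw [← jac_prod, hprod]
    have hmu : ArithmeticFunction.moebius n = (-1) ^ n.primeFactors.card := by
      rw [ArithmeticFunction.moebius_apply_of_squarefree hsf,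
        ← (ArithmeticFunction.cardDistinctFactors_eq_cardFactors_iff_squarefree (by omega)).2 hsf]
      rfl
    have hterm : ∀ p ∈ n.primeFactors, (if p ∈ pat X q then (-1 : ℝ) else 1) =
        -((jacobiSym (p : ℤ) q : ℤ) : ℝ) := by
      intro p hp
      have hpp := Nat.prime_of_mem_primeFactors hp
      have hpn : p ≤ n := Nat.le_of_dvd (by omega) (Nat.dvd_of_mem_primeFactors hp)
      have hcop : (p : ℤ).gcd q = 1 := by
        rw [Int.gcd_natCast_natCast]
        exact (Nat.coprime_primes hpp hq).2 (by omega)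
      have hmem : p ∈ PX X := by
        unfold PX
        rw [Finset.mem_filter, Finset.mem_Icc]
        exact ⟨⟨hpp.one_le, by omega⟩, hpp⟩
      by_cases hJ1 : jacobiSym (p : ℤ) q = 1
      · have : p ∈ pat X q := by
          unfold pat
          rw [Finset.mem_filter]
          exact ⟨hmem, hJ1⟩
        rw [if_pos this, hJ1]
        norm_num
      · have : p ∉ pat X q := by
          unfold pat
          rw [Finset.mem_filter]
          exact fun h => hJ1 h.2
        rcases jacobiSym.eq_one_or_neg_one hcop with h | h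
        · exact absurd h hJ1
        · rw [if_neg this, h]
          norm_num
    rw [Finset.prod_congr rfl hterm, hJ, hmu, Finset.prod_neg]
    push_cast
    rfl
  · rw [ArithmeticFunction.moebius_eq_zero_of_not_squarefree hsf]
    norm_num

end Pool.Agent.QT
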